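import Mathlib

/-!
# Growth functions of finitely presented semigroups do not oscillate arbitrarily

There are increasing functions `f₁, f₂` with `n ^ 2 ≼ f₁`, `f₂ ≼ 2 ^ n`, `f₁ ≁ n ^ 2`, `f₂ ≁ 2 ^ n`
such that for every finitely presented semigroup `S` and every finite subset `X` of `S` (in
particular every finite generating set) the growth function is eventually at least `f₁` or
eventually at most `f₂`.  Proof: `1 + growth` is submultiplicative, so a growth function is either
at least `c ^ n - 1` with `c > 1` or subexponential; there are only countably many growth functions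
of finitely presented semigroups, so a diagonal argument gives one subexponential `f₂` which
eventually dominates all the subexponential ones.
-/

set_option autoImplicit false

open Filter

namespace Pool.Agent.Results.MP_dd6e79_al.NoUniversalOscillation

/-- `f ≼ g`: there is a constant `C ≥ 1` with `f n ≤ C * g (C * n)` for all `n`. -/
def Dominated (f g : ℕ → ℕ) : Prop := ∃ C : ℕ, 1 ≤ C ∧ ∀ n, f n ≤ C * g (C * n)

/-- `f ∼ g`: `f ≼ g` and `g ≼ f`. -/
def Equivalent (f g : ℕ → ℕ) : Prop := Dominated f g ∧ Dominated g f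

/-- The semigroup `S` is finitely presented: it is isomorphic to the quotient of the free semigroup
on finitely many generators by the congruence generated by finitely many relations `u = v`. -/
def FinitelyPresented (S : Type*) [Semigroup S] : Prop :=
  ∃ (k : ℕ) (R : Finset (FreeSemigroup (Fin k) × FreeSemigroup (Fin k))),
    Nonempty (S ≃* (conGen (fun u v => (u, v) ∈ R)).Quotient)

/-- The growth function: the number of elements of `S` represented by a nonempty word of length at
most `n` over the finite set `X`. -/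
noncomputable def growth {S : Type*} [Semigroup S] (X : Finset S) (n : ℕ) : ℕ :=
  {s : S | ∃ w : FreeSemigroup X, w.length ≤ n ∧
    FreeSemigroup.lift (fun x : X => (x : S)) w = s}.ncard

/-- growth with respect to a family -/
noncomputable def gr {S : Type*} [Semigroup S] {ι : Type*} (g : ι → S) (n : ℕ) : ℕ :=
  {s : S | ∃ w : FreeSemigroup ι, w.length ≤ n ∧ FreeSemigroup.lift g w = s}.ncard

lemma gr_comp_equiv {S : Type*} [Semigroup S] {ι κ : Type*} (g : ι → S) (σ : κ ≃ ι) (n : ℕ) :
    gr (g ∘ σ) n = gr g n := by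
  unfold gr
  congr 1
  ext s
  have key : ∀ w : FreeSemigroup κ, FreeSemigroup.lift g (FreeSemigroup.map σ w) =
      FreeSemigroup.lift (g ∘ σ) w := by
    intro w
    have : (FreeSemigroup.lift g).comp (FreeSemigroup.map σ) = FreeSemigroup.lift (g ∘ σ) := by
      apply FreeSemigroup.hom_ext
      funext x
      simp
    exact DFunLike.congr_fun this w
  constructor
  · rintro ⟨w, hw, rfl⟩
    refine ⟨FreeSemigroup.map σ w, by simpa using hw, key w⟩
  · rintro ⟨w, hw, rfl⟩
    refine ⟨FreeSemigroup.map σ.symm w, by simpa using hw, ?_⟩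
    rw [← key]
    congr 1
    have : (FreeSemigroup.map σ).comp (FreeSemigroup.map σ.symm) =
        MulHom.id (FreeSemigroup ι) := by
      apply FreeSemigroup.hom_ext
      funext x
      simp
    exact DFunLike.congr_fun this w

lemma gr_equiv {S T : Type*} [Semigroup S] [Semigroup T] {ι : Type*} (g : ι → S) (e : S ≃* T)
    (n : ℕ) : gr (fun i => e (g i)) n = gr g n := by
  unfold gr
  have key : ∀ w : FreeSemigroup ι, FreeSemigroup.lift (fun i => e (g i)) w =
      e (FreeSemigroup.lift g w) := by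
    intro w
    have : FreeSemigroup.lift (fun i => e (g i)) =
        (e : S →ₙ* T).comp (FreeSemigroup.lift g) := by
      apply FreeSemigroup.hom_ext
      funext x
      simp
    exact DFunLike.congr_fun this w
  rw [← Set.ncard_image_of_injective _ e.injective]
  congr 1
  ext s
  simp only [Set.mem_image]
  constructor
  · rintro ⟨w, hw, rfl⟩
    exact ⟨_, ⟨w, hw, rfl⟩, (key w).symm⟩
  · rintro ⟨_, ⟨w, hw, rfl⟩, rfl⟩
    exact ⟨w, hw, key w⟩

instance (k : ℕ) : Countable (FreeSemigroup (Fin k)) := by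
  have : Function.Injective (fun w : FreeSemigroup (Fin k) => (w.head, w.tail)) := by
    intro a b h
    cases a
    cases b
    simpa using h
  exact this.countable

/-- codes for the finitely presented semigroups with a finite family of elements -/
abbrev Code : Type := Σ k : ℕ, Finset (FreeSemigroup (Fin k) × FreeSemigroup (Fin k)) ×
  (Σ m : ℕ, Fin m → FreeSemigroup (Fin k))

/-- the growth function of a code -/
noncomputable def codeGr (c : Code) : ℕ → ℕ :=
  gr (S := (conGen (fun u v => (u, v) ∈ c.2.1)).Quotient)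
    (fun i => ((c.2.2.2 i : FreeSemigroup (Fin c.1)) : (conGen (fun u v => (u, v) ∈ c.2.1)).Quotient))

lemma exists_code {S : Type*} [Semigroup S] (hS : FinitelyPresented S) (X : Finset S) :
    ∃ c : Code, growth X = codeGr c := by
  obtain ⟨k, R, ⟨e⟩⟩ := hS
  let σ : Fin (Fintype.card X) ≃ X := (Fintype.equivFin X).symm
  refine ⟨⟨k, R, Fintype.card X, fun i => (Quotient.out (e (σ i : S)) :)⟩, ?_⟩
  funext n
  have h1 : growth X n = gr (fun x : X => (x : S)) n := rfl
  rw [h1, ← gr_comp_equiv _ σ, ← gr_equiv _ e]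
  unfold codeGr
  congr 1
  funext i
  simp only [Function.comp_apply]
  exact (Quotient.out_eq (e (σ i : S))).symm


/-! ### submultiplicativity -/

lemma split {ι : Type*} (w : FreeSemigroup ι) {m : ℕ} (hm : 1 ≤ m) (h : m < w.length) :
    ∃ u v : FreeSemigroup ι, w = u * v ∧ u.length = m ∧ v.length = w.length - m := by
  obtain ⟨a, l⟩ := w
  have hl : m - 1 < l.length := by
    simp [FreeSemigroup.length] at h
    omega
  rcases hd : l.drop (m - 1) with _ | ⟨d, ds⟩
  · exfalso
    have := congrArg List.length hd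
    simp at this
    omega
  · refine ⟨⟨a, l.take (m - 1)⟩, ⟨d, ds⟩, ?_, ?_, ?_⟩
    · apply FreeSemigroup.ext
      · rfl
      · change l = l.take (m - 1) ++ (d :: ds)
        rw [← hd, List.take_append_drop]
    · simp [FreeSemigroup.length]
      omega
    · have := congrArg List.length hd
      simp [FreeSemigroup.length] at this ⊢
      omega

/-- the ball -/
def ball {S : Type*} [Semigroup S] {ι : Type*} (g : ι → S) (n : ℕ) : Set S :=
  {s : S | ∃ w : FreeSemigroup ι, w.length ≤ n ∧ FreeSemigroup.lift g w = s}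

lemma ball_finite {S : Type*} [Semigroup S] {ι : Type*} [Finite ι] (g : ι → S) (n : ℕ) :
    (ball g n).Finite := by
  have h1 : {w : FreeSemigroup ι | w.length ≤ n}.Finite := by
    have h2 : {l : List ι | l.length ≤ n}.Finite := List.finite_length_le ι n
    refine Set.Finite.of_finite_image (f := fun w : FreeSemigroup ι => w.head :: w.tail)
      (h2.subset ?_) ?_
    · rintro _ ⟨w, hw, rfl⟩
      have hw' : w.length ≤ n := hw
      change (w.head :: w.tail).length ≤ n
      simpa [FreeSemigroup.length] using hw'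
    · intro a _ b _ hab
      cases a
      cases b
      simpa using hab
  refine (h1.image (fun w => FreeSemigroup.lift g w)).subset ?_
  rintro s ⟨w, hw, rfl⟩
  exact ⟨w, hw, rfl⟩

lemma gr_sub {S : Type*} [Semigroup S] {ι : Type*} [Finite ι] (g : ι → S) (m n : ℕ) :
    1 + gr g (m + n) ≤ (1 + gr g m) * (1 + gr g n) := by
  rcases Nat.eq_zero_or_pos m with rfl | hm
  · rw [Nat.zero_add]
    exact Nat.le_mul_of_pos_left _ (by omega)
  · have hsub : ball g (m + n) ⊆ ball g m ∪ (fun p : S × S => p.1 * p.2) '' (ball g m ×ˢ ball g n) := by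
      rintro s ⟨w, hw, rfl⟩
      by_cases h : w.length ≤ m
      · exact Or.inl ⟨w, h, rfl⟩
      · right
        obtain ⟨u, v, hw', hu, hv⟩ := split w hm (by omega)
        refine ⟨(FreeSemigroup.lift g u, FreeSemigroup.lift g v),
          ⟨⟨u, by omega, rfl⟩, ⟨v, by omega, rfl⟩⟩, ?_⟩
        rw [hw', map_mul]
    have h1 : (ball g (m + n)).ncard ≤ (ball g m).ncard + (ball g m).ncard * (ball g n).ncard := by
      refine (Set.ncard_le_ncard hsub ((ball_finite g m).union
        (((ball_finite g m).prod (ball_finite g n)).image _))).trans ?_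
      refine (Set.ncard_union_le _ _).trans ?_
      refine Nat.add_le_add_left ?_ _
      refine (Set.ncard_image_le ((ball_finite g m).prod (ball_finite g n))).trans ?_
      rw [Set.ncard_prod]
    have h2 : gr g (m + n) ≤ gr g m + gr g m * gr g n := h1
    nlinarith

/-! ### subexponential functions -/

/-- subexponential growth -/
def SubExp (f : ℕ → ℕ) : Prop := ∀ ε : ℝ, 0 < ε → ∃ C : ℝ, ∀ n, (f n : ℝ) ≤ C * Real.exp (ε * n)

lemma dicho (a : ℕ → ℕ) (h1 : ∀ m n, a (m + n) ≤ a m * a n) (h0 : ∀ n, 1 ≤ a n)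
    (hs : ¬ SubExp a) : ∃ ε : ℝ, 0 < ε ∧ ∀ n : ℕ, Real.exp (ε * n) ≤ a n := by
  unfold SubExp at hs
  push Not at hs
  obtain ⟨ε, hε, hC⟩ := hs
  refine ⟨ε, hε, fun n₀ => ?_⟩
  by_contra hlt
  push Not at hlt
  have hn0 : 0 < n₀ := by
    rcases Nat.eq_zero_or_pos n₀ with rfl | h
    · exfalso
      have := h0 0
      have h2 : (1 : ℝ) ≤ a 0 := by exact_mod_cast this
      rw [Nat.cast_zero, mul_zero, Real.exp_zero] at hlt
      linarith
    · exact h
  have hq : ∀ q r : ℕ, a (q * n₀ + r) ≤ a n₀ ^ q * a r := by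
    intro q r
    induction q with
    | zero => simp
    | succ q ih =>
      have e : (q + 1) * n₀ + r = n₀ + (q * n₀ + r) := by ring
      rw [e, pow_succ]
      refine (h1 _ _).trans ?_
      calc a n₀ * a (q * n₀ + r) ≤ a n₀ * (a n₀ ^ q * a r) := Nat.mul_le_mul_left _ ih
        _ = _ := by ring
  set M : ℝ := ∑ r ∈ Finset.range n₀, (a r : ℝ) with hM
  obtain ⟨n, hn⟩ := hC M
  have hn2 : n = (n / n₀) * n₀ + n % n₀ := by
    rw [Nat.mul_comm]
    exact (Nat.div_add_mod n n₀).symm
  have hr : n % n₀ < n₀ := Nat.mod_lt _ hn0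
  have h3 : (a n : ℝ) ≤ (a n₀ : ℝ) ^ (n / n₀) * a (n % n₀) := by
    have := hq (n / n₀) (n % n₀)
    rw [← hn2] at this
    exact_mod_cast this
  have h4 : (a (n % n₀) : ℝ) ≤ M :=
    Finset.single_le_sum (f := fun r => (a r : ℝ)) (fun i _ => Nat.cast_nonneg _)
      (Finset.mem_range.mpr hr)
  have h5 : (a n₀ : ℝ) ^ (n / n₀) ≤ Real.exp (ε * n) := by
    calc (a n₀ : ℝ) ^ (n / n₀) ≤ (Real.exp (ε * n₀)) ^ (n / n₀) :=
          pow_le_pow_left₀ (Nat.cast_nonneg _) hlt.le _
      _ = Real.exp (ε * n₀ * (n / n₀ : ℕ)) := by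
          rw [← Real.exp_nat_mul]
          ring_nf
      _ ≤ Real.exp (ε * n) := by
          refine Real.exp_le_exp.mpr ?_
          rw [mul_assoc]
          refine mul_le_mul_of_nonneg_left ?_ hε.le
          have : n₀ * (n / n₀) ≤ n := Nat.mul_div_le n n₀
          exact_mod_cast this
  have hM0 : 0 ≤ M := (Nat.cast_nonneg _).trans h4
  have h6 : (a n : ℝ) ≤ M * Real.exp (ε * n) := by
    calc (a n : ℝ) ≤ (a n₀ : ℝ) ^ (n / n₀) * a (n % n₀) := h3
      _ ≤ Real.exp (ε * n) * M := by gcongr
      _ = _ := mul_comm _ _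
  linarith

lemma SubExp.add {f g : ℕ → ℕ} (hf : SubExp f) (hg : SubExp g) : SubExp (fun n => f n + g n) := by
  intro ε hε
  obtain ⟨C, hC⟩ := hf ε hε
  obtain ⟨D, hD⟩ := hg ε hε
  refine ⟨C + D, fun n => ?_⟩
  have := hC n
  have := hD n
  push_cast
  linarith

lemma subExp_zero : SubExp (fun _ => 0) := fun ε _ => ⟨0, fun n => by simp⟩

lemma SubExp.sum {ι : Type*} (s : Finset ι) {f : ι → ℕ → ℕ} (hf : ∀ i ∈ s, SubExp (f i)) :
    SubExp (fun n => ∑ i ∈ s, f i n) := by
  classical
  induction s using Finset.induction_on with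
  | empty => simpa using subExp_zero
  | insert a s ha ih =>
    have := (hf a (Finset.mem_insert_self _ _)).add (ih fun i hi => hf i (Finset.mem_insert_of_mem hi))
    simpa [Finset.sum_insert ha] using this

lemma succ_le_exp {ε : ℝ} (hε : 0 < ε) (n : ℕ) : (n : ℝ) + 1 ≤ (1 + 1 / ε) * Real.exp (ε * n) := by
  have h1 : ε * n + 1 ≤ Real.exp (ε * n) := Real.add_one_le_exp _
  have h2 : (0 : ℝ) ≤ ε * n := by positivity
  have h3 : 1 ≤ Real.exp (ε * n) := by linarith
  have h4 : (n : ℝ) = (1 / ε) * (ε * n) := by field_simp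
  have h5 : (1 / ε) * (ε * n) ≤ (1 / ε) * Real.exp (ε * n) := by
    refine mul_le_mul_of_nonneg_left (by linarith) (by positivity)
  linarith

/-- running sums -/
lemma SubExp.running {f : ℕ → ℕ} (hf : SubExp f) :
    SubExp (fun n => ∑ m ∈ Finset.range (n + 1), f m) := by
  intro ε hε
  obtain ⟨C, hC⟩ := hf (ε / 2) (by positivity)
  have hC0 : 0 ≤ C := by
    have := (Nat.cast_nonneg (f 0)).trans (hC 0)
    simpa using this
  refine ⟨C * (1 + 1 / (ε / 2)), fun n => ?_⟩
  push_cast
  calc ∑ m ∈ Finset.range (n + 1), (f m : ℝ)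
      ≤ ∑ m ∈ Finset.range (n + 1), C * Real.exp (ε / 2 * n) := by
        refine Finset.sum_le_sum fun m hm => (hC m).trans ?_
        have : (m : ℝ) ≤ n := by
          have := Finset.mem_range.mp hm
          exact_mod_cast Nat.lt_succ_iff.mp this
        gcongr
    _ = C * ((n : ℝ) + 1) * Real.exp (ε / 2 * n) := by
        rw [Finset.sum_const, Finset.card_range, nsmul_eq_mul]
        push_cast
        ring
    _ ≤ C * ((1 + 1 / (ε / 2)) * Real.exp (ε / 2 * n)) * Real.exp (ε / 2 * n) := by
        gcongr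
        exact succ_le_exp (by positivity) n
    _ = C * (1 + 1 / (ε / 2)) * Real.exp (ε * n) := by
        have : Real.exp (ε * n) = Real.exp (ε / 2 * n) * Real.exp (ε / 2 * n) := by
          rw [← Real.exp_add]
          ring_nf
        rw [this]
        ring

lemma exp_tendsto {ε : ℝ} (hε : 0 < ε) :
    Tendsto (fun n : ℕ => Real.exp (ε * n)) atTop atTop :=
  Real.tendsto_exp_atTop.comp ((tendsto_natCast_atTop_atTop).const_mul_atTop hε)

lemma SubExp.eventually {f : ℕ → ℕ} (hf : SubExp f) {ε : ℝ} (hε : 0 < ε) :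
    ∃ N : ℕ, ∀ n : ℕ, N ≤ n → (f n : ℝ) ≤ Real.exp (ε * n) := by
  obtain ⟨C, hC⟩ := hf (ε / 2) (by positivity)
  have h1 : ∀ᶠ n : ℕ in atTop, C ≤ Real.exp (ε / 2 * n) :=
    (exp_tendsto (by positivity : 0 < ε / 2)).eventually_ge_atTop C
  obtain ⟨N, hN⟩ := eventually_atTop.mp h1
  refine ⟨N, fun n hn => (hC n).trans ?_⟩
  have h2 := hN n hn
  calc C * Real.exp (ε / 2 * n) ≤ Real.exp (ε / 2 * n) * Real.exp (ε / 2 * n) := by gcongr
    _ = Real.exp (ε * n) := by
        rw [← Real.exp_add]
        ring_nf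

/-- diagonal function -/
lemma diagonal (F : ℕ → ℕ → ℕ) : ∃ f : ℕ → ℕ, StrictMono f ∧ SubExp f ∧
    ∀ j, SubExp (F j) → ∀ᶠ n in atTop, F j n ≤ f n := by
  classical
  -- make everything subexponential and monotone
  set A : ℕ → ℕ → ℕ := fun j n => if SubExp (F j) then ∑ m ∈ Finset.range (n + 1), F j m else 0
    with hA
  have hAs : ∀ j, SubExp (A j) := by
    intro j
    by_cases h : SubExp (F j)
    · simp only [hA, h, if_true]
      exact h.running
    · simp only [hA, h, if_false]
      exact subExp_zero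
  have hAm : ∀ j, Monotone (A j) := by
    intro j m n hmn
    simp only [hA]
    split_ifs
    · exact Finset.sum_le_sum_of_subset (Finset.range_mono (by omega))
    · exact le_rfl
  have hAF : ∀ j, SubExp (F j) → ∀ n, F j n ≤ A j n := by
    intro j h n
    simp only [hA, h, if_true]
    exact Finset.single_le_sum (f := F j) (fun i _ => Nat.zero_le _)
      (Finset.mem_range.mpr (Nat.lt_succ_self n))
  have hN : ∀ j : ℕ, ∃ N : ℕ, ∀ n : ℕ, N ≤ n → (A j n : ℝ) ≤ Real.exp (1 / ((j : ℝ) + 1) * n) :=
    fun j => (hAs j).eventually (by positivity)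
  choose N hN using hN
  set g : ℕ → ℕ := fun n => ∑ j ∈ (Finset.range (n + 1)).filter (fun j => N j ≤ n), A j n with hg
  have hgm : Monotone g := by
    intro m n hmn
    simp only [hg]
    calc ∑ j ∈ (Finset.range (m + 1)).filter (fun j => N j ≤ m), A j m
        ≤ ∑ j ∈ (Finset.range (m + 1)).filter (fun j => N j ≤ m), A j n :=
          Finset.sum_le_sum fun j _ => hAm j hmn
      _ ≤ _ := by
          refine Finset.sum_le_sum_of_subset fun j hj => ?_
          rw [Finset.mem_filter, Finset.mem_range] at hj ⊢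
          omega
  have hgs : SubExp g := by
    intro ε hε
    obtain ⟨J, hJ⟩ := exists_nat_gt (2 / ε)
    obtain ⟨C, hC⟩ := (SubExp.sum (Finset.range J) (f := A) fun i _ => hAs i) ε hε
    have hC0 : 0 ≤ C := by
      have := (Nat.cast_nonneg (α := ℝ) (∑ i ∈ Finset.range J, A i 0)).trans (hC 0)
      simpa using this
    refine ⟨C + (1 + 1 / (ε / 2)), fun n => ?_⟩
    have h1 : g n ≤ ∑ j ∈ Finset.range J, A j n +
        ∑ j ∈ (Finset.range (n + 1)).filter (fun j => N j ≤ n ∧ J ≤ j), A j n := by
      simp only [hg]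
      have hsub : (Finset.range (n + 1)).filter (fun j => N j ≤ n) ⊆
          Finset.range J ∪ (Finset.range (n + 1)).filter (fun j => N j ≤ n ∧ J ≤ j) := by
        intro j hj
        rw [Finset.mem_filter, Finset.mem_range] at hj
        rw [Finset.mem_union, Finset.mem_filter, Finset.mem_range, Finset.mem_range]
        by_cases h : j < J
        · exact Or.inl h
        · exact Or.inr ⟨hj.1, hj.2, by omega⟩
      refine (Finset.sum_le_sum_of_subset hsub).trans ?_
      have := Finset.sum_union_inter (s₁ := Finset.range J)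
        (s₂ := (Finset.range (n + 1)).filter (fun j => N j ≤ n ∧ J ≤ j)) (f := fun j => A j n)
      omega
    have h2 : ((∑ j ∈ (Finset.range (n + 1)).filter (fun j => N j ≤ n ∧ J ≤ j), A j n : ℕ) : ℝ) ≤
        ((n : ℝ) + 1) * Real.exp (ε / 2 * n) := by
      push_cast
      calc ∑ j ∈ (Finset.range (n + 1)).filter (fun j => N j ≤ n ∧ J ≤ j), (A j n : ℝ)
          ≤ ∑ j ∈ (Finset.range (n + 1)).filter (fun j => N j ≤ n ∧ J ≤ j),
              Real.exp (ε / 2 * n) := by
            refine Finset.sum_le_sum fun j hj => ?_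
            rw [Finset.mem_filter] at hj
            refine (hN j n hj.2.1).trans (Real.exp_le_exp.mpr ?_)
            refine mul_le_mul_of_nonneg_right ?_ (Nat.cast_nonneg _)
            have hJj : (J : ℝ) ≤ j := by exact_mod_cast hj.2.2
            have h3 : 2 / ε < (j : ℝ) + 1 := by linarith
            rw [div_le_iff₀ (by positivity)]
            rw [div_lt_iff₀ hε] at h3
            nlinarith
        _ ≤ ∑ j ∈ Finset.range (n + 1), Real.exp (ε / 2 * n) :=
            Finset.sum_le_sum_of_subset_of_nonneg (Finset.filter_subset _ _)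
              (fun _ _ _ => (Real.exp_pos _).le)
        _ = _ := by
            rw [Finset.sum_const, Finset.card_range, nsmul_eq_mul]
            push_cast
            ring
    have h3 : ((n : ℝ) + 1) * Real.exp (ε / 2 * n) ≤ (1 + 1 / (ε / 2)) * Real.exp (ε * n) := by
      calc ((n : ℝ) + 1) * Real.exp (ε / 2 * n)
          ≤ ((1 + 1 / (ε / 2)) * Real.exp (ε / 2 * n)) * Real.exp (ε / 2 * n) := by
            gcongr
            exact succ_le_exp (by positivity) n
        _ = _ := by
            have : Real.exp (ε * n) = Real.exp (ε / 2 * n) * Real.exp (ε / 2 * n) := by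
              rw [← Real.exp_add]
              ring_nf
            rw [this]
            ring
    have h4 : (g n : ℝ) ≤ ((∑ j ∈ Finset.range J, A j n : ℕ) : ℝ) +
        ((∑ j ∈ (Finset.range (n + 1)).filter (fun j => N j ≤ n ∧ J ≤ j), A j n : ℕ) : ℝ) := by
      exact_mod_cast h1
    have h5 := hC n
    linarith
  refine ⟨fun n => g n + n, fun m n hmn => ?_, hgs.add ?_, fun j hj => ?_⟩
  · have := hgm hmn.le
    change g m + m < g n + n
    omega
  · intro ε hε
    exact ⟨1 + 1 / ε, fun n => by
      have := succ_le_exp hε n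
      linarith⟩
  · filter_upwards [eventually_ge_atTop (max j (N j))] with n hn
    have h1 : A j n ≤ g n := by
      simp only [hg]
      refine Finset.single_le_sum (f := fun j => A j n) (fun i _ => Nat.zero_le _) ?_
      rw [Finset.mem_filter, Finset.mem_range]
      omega
    have := hAF j hj n
    omega


lemma exp_beats_cube {ε : ℝ} (hε : 0 < ε) : ∀ᶠ n : ℕ in atTop, (n : ℝ) ^ 3 + 1 ≤ Real.exp (ε * n) := by
  have h1 : Tendsto (fun x : ℝ => Real.exp (ε * x) / x ^ 3) atTop atTop := by
    simpa using tendsto_exp_mul_div_rpow_atTop (3 : ℕ) ε hε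
  have h2 : ∀ᶠ n : ℕ in atTop, 2 ≤ Real.exp (ε * n) / (n : ℝ) ^ 3 :=
    (h1.comp tendsto_natCast_atTop_atTop).eventually_ge_atTop 2
  filter_upwards [h2, eventually_ge_atTop 1] with n hn h1n
  have h3 : (1 : ℝ) ≤ n := by exact_mod_cast h1n
  have h4 : (1 : ℝ) ≤ (n : ℝ) ^ 3 := one_le_pow₀ h3
  rw [le_div_iff₀ (by positivity)] at hn
  linarith

theorem result.{u} :
    ∃ f₁ f₂ : ℕ → ℕ, StrictMono f₁ ∧ StrictMono f₂ ∧
      Dominated (fun n => n ^ 2) f₁ ∧ ¬ Equivalent f₁ (fun n => n ^ 2) ∧
      Dominated f₂ (fun n => 2 ^ n) ∧ ¬ Equivalent f₂ (fun n => 2 ^ n) ∧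
      ∀ (S : Type u) [Semigroup S], FinitelyPresented S → ∀ X : Finset S,
        (∀ᶠ n in atTop, f₁ n ≤ growth X n) ∨ (∀ᶠ n in atTop, growth X n ≤ f₂ n) := by
  obtain ⟨e, he⟩ := exists_surjective_nat Code
  obtain ⟨f, hf1, hf2, hf3⟩ := diagonal (fun j => codeGr (e j))
  refine ⟨fun n => n ^ 3, f, fun m n h => Nat.pow_lt_pow_left h (by norm_num), hf1,
    ⟨1, le_rfl, fun n => ?_⟩, ?_, ?_, ?_, ?_⟩
  · simp only [one_mul]
    rcases Nat.eq_zero_or_pos n with rfl | h
    · simp
    · exact Nat.pow_le_pow_right h (by norm_num)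
  · rintro ⟨⟨C, hC1, hC⟩, -⟩
    have h := hC (C ^ 3 + 1)
    have h2 : C * (C * (C ^ 3 + 1)) ^ 2 = C ^ 3 * (C ^ 3 + 1) ^ 2 := by ring
    simp only [h2] at h
    have h3 : (C ^ 3 + 1) ^ 3 = C ^ 3 * (C ^ 3 + 1) ^ 2 + (C ^ 3 + 1) ^ 2 := by ring
    have h4 : 0 < (C ^ 3 + 1) ^ 2 := by positivity
    omega
  · obtain ⟨C, hC⟩ := hf2 (Real.log 2) (Real.log_pos (by norm_num))
    obtain ⟨D, hD⟩ := exists_nat_ge C
    refine ⟨max D 1, le_max_right _ _, fun n => ?_⟩
    have h1 : Real.exp (Real.log 2 * n) = 2 ^ n := by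
      rw [mul_comm, Real.exp_nat_mul, Real.exp_log (by norm_num)]
    have h2 := hC n
    rw [h1] at h2
    have h3 : (f n : ℝ) ≤ (D : ℝ) * 2 ^ n := h2.trans (by gcongr)
    have h4 : f n ≤ D * 2 ^ n := by exact_mod_cast h3
    refine h4.trans (Nat.mul_le_mul (le_max_left _ _) (Nat.pow_le_pow_right (by norm_num) ?_))
    exact Nat.le_mul_of_pos_left _ (by omega)
  · rintro ⟨-, ⟨C, hC1, hC⟩⟩
    have hCpos : (0 : ℝ) < C := by exact_mod_cast hC1
    have hlog : 0 < Real.log 2 := Real.log_pos (by norm_num)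
    obtain ⟨D, hD⟩ := hf2 (Real.log 2 / (2 * C)) (by positivity)
    have hb : ∀ n : ℕ, Real.exp (Real.log 2 / 2 * n) ≤ C * D := by
      intro n
      have h1 : Real.exp (Real.log 2 * n) = 2 ^ n := by
        rw [mul_comm, Real.exp_nat_mul, Real.exp_log (by norm_num)]
      have h2 : ((2 : ℝ) ^ n) ≤ C * f (C * n) := by exact_mod_cast hC n
      have h3 := hD (C * n)
      have h4 : Real.log 2 / (2 * C) * ((C * n : ℕ) : ℝ) = Real.log 2 / 2 * n := by
        push_cast
        field_simp
      rw [h4] at h3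
      have h5 : Real.exp (Real.log 2 * n) =
          Real.exp (Real.log 2 / 2 * n) * Real.exp (Real.log 2 / 2 * n) := by
        rw [← Real.exp_add]
        ring_nf
      have hpos : 0 < Real.exp (Real.log 2 / 2 * n) := Real.exp_pos _
      have h6 : Real.exp (Real.log 2 / 2 * n) * Real.exp (Real.log 2 / 2 * n) ≤
          (C * D) * Real.exp (Real.log 2 / 2 * n) := by
        rw [← h5, h1]
        calc (2 : ℝ) ^ n ≤ C * f (C * n) := h2
          _ ≤ C * (D * Real.exp (Real.log 2 / 2 * n)) := by gcongr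
          _ = _ := by ring
      exact le_of_mul_le_mul_right h6 hpos
    obtain ⟨n, hn⟩ := ((exp_tendsto (by positivity : 0 < Real.log 2 / 2)).eventually_gt_atTop
      (C * D)).exists
    exact absurd (hb n) (not_le.mpr hn)
  · intro S _ hS X
    obtain ⟨c, hc⟩ := exists_code hS X
    obtain ⟨j, rfl⟩ := he c
    by_cases hsub : SubExp (codeGr (e j))
    · right
      rw [hc]
      exact hf3 j hsub
    · left
      have h1 : ¬ SubExp (fun n => 1 + growth X n) := by
        intro h
        refine hsub fun ε hε => ?_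
        obtain ⟨C, hC⟩ := h ε hε
        refine ⟨C, fun n => ?_⟩
        have := hC n
        push_cast at this
        rw [← hc]
        linarith
      obtain ⟨ε, hε, h2⟩ := dicho (fun n => 1 + growth X n)
        (fun m n => gr_sub (fun x : X => (x : S)) m n) (fun n => by omega) h1
      filter_upwards [exp_beats_cube hε] with n hn
      have h3 := h2 n
      push_cast at h3
      have h4 : ((n : ℝ)) ^ 3 ≤ growth X n := by linarith
      exact_mod_cast h4

end Pool.Agent.Results.MP_dd6e79_al.NoUniversalOscillation
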